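import Pool.Agent.helper70.Oct.Chk

/-! Derivatives of tables (module J3b of the project OCT). -/

set_option autoImplicit false

open MvPolynomial Set Filter Topology

namespace Oct

namespace J3b_aux

theorem evP_cons (c : ℤ) (l : List ℤ) (x : ℝ) : evP (c :: l) x = (c : ℝ) + x * evP l x := rfl

theorem evT_cons (l : List ℤ) (G : List (List ℤ)) (t u : ℝ) :
    evT (l :: G) t u = evP l t + u * evT G t u := rfl

theorem evP_smul (k : ℤ) (l : List ℤ) (x : ℝ) :
    evP (l.map (fun c => k * c)) x = (k : ℝ) * evP l x := by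
  induction l with
  | nil => simp [evP]
  | cons c l ih =>
    rw [List.map_cons, evP_cons, evP_cons, ih]
    push_cast
    ring

theorem derP_aux (l : List ℤ) (x : ℝ) : ∀ k : ℕ,
    HasDerivAt (fun y : ℝ => y ^ (k + 1) * evP l y) (x ^ k * evP (derP (k + 1) l) x) x := by
  induction l with
  | nil =>
    intro k
    simpa [evP, derP] using hasDerivAt_const x (0 : ℝ)
  | cons c l ih =>
    intro k
    have h1 : HasDerivAt (fun y : ℝ => (c : ℝ) * y ^ (k + 1))
        ((c : ℝ) * (((k + 1 : ℕ) : ℝ) * x ^ k)) x := by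
      simpa using (hasDerivAt_pow (k + 1) x).const_mul (c : ℝ)
    have h2 := h1.add (ih (k + 1))
    have e1 : (fun y : ℝ => y ^ (k + 1) * evP (c :: l) y) =
        ((fun y : ℝ => (c : ℝ) * y ^ (k + 1)) + fun y : ℝ => y ^ (k + 1 + 1) * evP l y) := by
      funext y
      simp only [Pi.add_apply]
      rw [evP_cons]
      ring
    rw [e1]
    refine h2.congr_deriv ?_
    show _ = x ^ k * evP (((k + 1 : ℕ) : ℤ) * c :: derP (k + 1 + 1) l) x
    rw [evP_cons]
    push_cast
    ring

theorem hasDerivAt_evP (l : List ℤ) (x : ℝ) :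
    HasDerivAt (fun y : ℝ => evP l y) (evP (derP 1 l.tail) x) x := by
  cases l with
  | nil => simpa [evP, derP] using hasDerivAt_const x (0 : ℝ)
  | cons c l =>
    have h := (derP_aux l x 0).const_add (c : ℝ)
    have e1 : (fun y : ℝ => evP (c :: l) y) = fun y : ℝ => (c : ℝ) + y ^ (0 + 1) * evP l y := by
      funext y
      rw [evP_cons]
      ring
    rw [e1]
    refine h.congr_deriv ?_
    rw [pow_zero, one_mul]
    rfl

theorem derT_aux (G : List (List ℤ)) (t u : ℝ) : ∀ k : ℕ,
    HasDerivAt (fun y : ℝ => y ^ (k + 1) * evT G t y) (u ^ k * evT (derT (k + 1) G) t u) u := by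
  induction G with
  | nil =>
    intro k
    simpa [evT, derT] using hasDerivAt_const u (0 : ℝ)
  | cons l G ih =>
    intro k
    have h1 : HasDerivAt (fun y : ℝ => evP l t * y ^ (k + 1))
        (evP l t * (((k + 1 : ℕ) : ℝ) * u ^ k)) u := by
      simpa using (hasDerivAt_pow (k + 1) u).const_mul (evP l t)
    have h2 := h1.add (ih (k + 1))
    have e1 : (fun y : ℝ => y ^ (k + 1) * evT (l :: G) t y) =
        ((fun y : ℝ => evP l t * y ^ (k + 1)) + fun y : ℝ => y ^ (k + 1 + 1) * evT G t y) := by
      funext y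
      simp only [Pi.add_apply]
      rw [evT_cons]
      ring
    rw [e1]
    refine h2.congr_deriv ?_
    show _ = u ^ k * evT ((l.map (fun c => ((k + 1 : ℕ) : ℤ) * c)) :: derT (k + 1 + 1) G) t u
    rw [evT_cons, evP_smul]
    push_cast
    ring

end J3b_aux

open J3b_aux

/-- derivatives of tables -/
theorem hasDerivAt_dT (G : List (List ℤ)) (t u : ℝ) :
    HasDerivAt (fun x => evT G x u) (evT (dT G) t u) t := by
  induction G with
  | nil => simpa [evT, dT] using hasDerivAt_const t (0 : ℝ)
  | cons l G ih =>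
    have h := (hasDerivAt_evP l t).add (ih.const_mul u)
    exact h

theorem hasDerivAt_dU (G : List (List ℤ)) (t u : ℝ) :
    HasDerivAt (fun x => evT G t x) (evT (dU G) t u) u := by
  cases G with
  | nil => simpa [evT, dU, derT] using hasDerivAt_const u (0 : ℝ)
  | cons l G =>
    have h := (derT_aux G t u 0).const_add (evP l t)
    have e1 : (fun y : ℝ => evT (l :: G) t y) = fun y : ℝ => evP l t + y ^ (0 + 1) * evT G t y := by
      funext y
      rw [evT_cons]
      ring
    rw [e1]
    refine h.congr_deriv ?_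
    rw [pow_zero, one_mul]
    rfl

end Oct
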